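import Mathlib

namespace Pool.Agent.Results.MP_762e7e_co.FinitelyMany

open Matrix

/-- The matrix with rows `(a, -1)` and `(1, 0)`. -/
def T {N : ℕ} (a : ZMod N) : Matrix (Fin 2) (Fin 2) (ZMod N) := !![a, -1; 1, 0]

/-- `M [a₁, ..., aₙ] = T aₙ * ... * T a₁`. -/
def M {N : ℕ} : List (ZMod N) → Matrix (Fin 2) (Fin 2) (ZMod N)
  | [] => 1
  | a :: l => M l * T a

/-- A tuple is a solution of `(E_N)` if its matrix is `Id` or `-Id`. -/
def IsSolution {N : ℕ} (c : List (ZMod N)) : Prop := M c = 1 ∨ M c = -1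

/-- The sum `(a₁ + b_m, a₂, ..., a_{n-1}, a_n + b₁, b₂, ..., b_{m-1})` of two tuples
`(a₁, ..., a_n)` and `(b₁, ..., b_m)`. -/
def osum {N : ℕ} (a b : List (ZMod N)) : List (ZMod N) :=
  (a.headD 0 + b.getLastD 0) ::
    (a.tail.dropLast ++ (a.getLastD 0 + b.headD 0) :: b.tail.dropLast)

/-- Two tuples are equivalent if the second is a cyclic rotation of the first or of its
reversal. -/
def Equi {N : ℕ} (a b : List (ZMod N)) : Prop := a.IsRotated b ∨ a.reverse.IsRotated b

/-- A tuple is reducible if it is equivalent to the sum of two solutions of sizes at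
least `3`. -/
def Reducible {N : ℕ} (c : List (ZMod N)) : Prop :=
  ∃ a b : List (ZMod N), IsSolution a ∧ 3 ≤ a.length ∧ IsSolution b ∧ 3 ≤ b.length ∧
    Equi c (osum a b)

/-- Irreducible solutions: solutions of size at least `3` which are not reducible. -/
def IsIrreducible {N : ℕ} (c : List (ZMod N)) : Prop :=
  IsSolution c ∧ 3 ≤ c.length ∧ ¬ Reducible c

variable {N : ℕ}

lemma M_append (a b : List (ZMod N)) : M (a ++ b) = M b * M a := by
  induction a with
  | nil => simp [M]
  | cons x a ih => simp [M, ih, Matrix.mul_assoc]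

lemma det_M (a : List (ZMod N)) : (M a).det = 1 := by
  induction a with
  | nil => simp [M]
  | cons x a ih => simp [M, ih, T, Matrix.det_fin_two]

lemma M_snoc (a : List (ZMod N)) (x : ZMod N) : M (a ++ [x]) = T x * M a := by
  rw [M_append]; simp [M]

lemma row (a : List (ZMod N)) (x : ZMod N) (k : Fin 2) : M (a ++ [x]) 1 k = M a 0 k := by
  rw [M_snoc]; fin_cases k <;> simp [T, Matrix.mul_apply, Fin.sum_univ_two]

lemma rot {a b : List (ZMod N)} (h : IsSolution (a ++ b)) : IsSolution (b ++ a) := by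
  unfold IsSolution at *
  rw [M_append] at *
  rcases h with h | h
  · left; exact mul_eq_one_comm.mp h
  · right
    have h1 : (-M b) * M a = 1 := by rw [Matrix.neg_mul, h, neg_neg]
    have h2 := mul_eq_one_comm.mp h1
    rw [Matrix.mul_neg] at h2
    rw [← h2, neg_neg]

/-- The basic reduction step. -/
lemma reduce {s t : List (ZMod N)} {x0 y0 : ZMod N} (hs : s ≠ []) (ht : t ≠ [])
    (hc : IsSolution (x0 :: (s ++ [y0]) ++ t)) (hP : M t 0 0 = 1) :
    ∃ a b : List (ZMod N), IsSolution a ∧ 3 ≤ a.length ∧ IsSolution b ∧ 3 ≤ b.length ∧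
      osum a b = x0 :: (s ++ [y0]) ++ t := by
  obtain ⟨q, hq⟩ : ∃ q, M t 0 1 = q := ⟨_, rfl⟩
  obtain ⟨r, hr⟩ : ∃ r, M t 1 0 = r := ⟨_, rfl⟩
  have hd := det_M t
  rw [Matrix.det_fin_two, hP, hq, hr, one_mul] at hd
  have hd' : M t 1 1 = 1 + q * r := by rw [← hd]; ring
  have hPt : M t = !![1, q; r, 1 + q * r] := by
    ext i j
    fin_cases i <;> fin_cases j <;> simp [hP, hq, hr, hd']
  have hsl : 1 ≤ s.length := List.length_pos_iff.mpr hs
  have htl : 1 ≤ t.length := List.length_pos_iff.mpr ht
  refine ⟨(x0 - r) :: (s ++ [y0 + q]), (-q) :: (t ++ [r]), ?_, ?_, ?_, ?_, ?_⟩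
  · -- `a` is a solution
    have hR : M (x0 :: (s ++ [y0])) = T y0 * M s * T x0 := by
      rw [M, M_snoc]
    have hA : M ((x0 - r) :: (s ++ [y0 + q])) =
        !![1, q; 0, 1] * M (x0 :: (s ++ [y0])) * !![1, 0; r, 1] := by
      have h1 : T (y0 + q) = !![1, q; 0, 1] * T y0 := by
        ext i j
        fin_cases i <;> fin_cases j <;> simp [T]
      have h2 : T (x0 - r) = T x0 * !![1, 0; r, 1] := by
        ext i j
        fin_cases i <;> fin_cases j <;> simp [T, sub_eq_add_neg]
      rw [hR, M, M_snoc, h1, h2]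
      simp only [Matrix.mul_assoc]
    have hinv : (!![1 + q * r, -q; -r, 1] : Matrix (Fin 2) (Fin 2) (ZMod N)) * M t = 1 := by
      rw [hPt]
      ext i j
      fin_cases i <;> fin_cases j <;> simp [Matrix.mul_apply, Fin.sum_univ_two] <;> ring
    have key : (!![1, q; 0, 1] : Matrix (Fin 2) (Fin 2) (ZMod N)) *
        !![1 + q * r, -q; -r, 1] * !![1, 0; r, 1] = 1 := by
      ext i j
      fin_cases i <;> fin_cases j <;> simp [Matrix.mul_apply, Fin.sum_univ_two]
    unfold IsSolution at hc
    rw [M_append] at hc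
    rcases hc with hc | hc
    · left
      have : M (x0 :: (s ++ [y0])) = !![1 + q * r, -q; -r, 1] := by
        calc M (x0 :: (s ++ [y0])) = (!![1 + q * r, -q; -r, 1] * M t) * M (x0 :: (s ++ [y0])) := by
              rw [hinv, Matrix.one_mul]
          _ = _ := by rw [Matrix.mul_assoc, hc, Matrix.mul_one]
      rw [hA, this, key]
    · right
      have : M (x0 :: (s ++ [y0])) = -!![1 + q * r, -q; -r, 1] := by
        calc M (x0 :: (s ++ [y0])) = (!![1 + q * r, -q; -r, 1] * M t) * M (x0 :: (s ++ [y0])) := by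
              rw [hinv, Matrix.one_mul]
          _ = _ := by rw [Matrix.mul_assoc, hc, Matrix.mul_neg, Matrix.mul_one]
      rw [hA, this, Matrix.mul_neg, Matrix.neg_mul, key]
  · simp; omega
  · right
    rw [M, M_snoc, hPt]
    ext i j
    fin_cases i <;> fin_cases j <;>
      simp [T, Matrix.mul_apply, Fin.sum_univ_two]
    ring
  · simp; omega
  · have e1 : (x0 - r) :: (s ++ [y0 + q]) = ((x0 - r) :: s) ++ [y0 + q] := by simp
    have e2 : (-q) :: (t ++ [r]) = ((-q) :: t) ++ [r] := by simp
    unfold osum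
    rw [List.tail_cons, List.tail_cons, List.dropLast_concat, List.dropLast_concat,
      List.headD_cons, List.headD_cons]
    rw [e1, e2, List.getLastD_concat, List.getLastD_concat]
    simp

/-- Every solution of size at least `N^2 + 3` is reducible. -/
lemma reducible_of_large (hN : 2 ≤ N) {c : List (ZMod N)} (hc : IsSolution c)
    (hlen : N ^ 2 + 3 ≤ c.length) : Reducible c := by
  have : NeZero N := ⟨by omega⟩
  -- pigeonhole on the first rows of the partial products
  obtain ⟨i, j, hij, hjN, h0, h1⟩ : ∃ i j : ℕ, i < j ∧ j ≤ N ^ 2 ∧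
      M (c.take i) 0 0 = M (c.take j) 0 0 ∧ M (c.take i) 0 1 = M (c.take j) 0 1 := by
    have hcard : Fintype.card (ZMod N × ZMod N) < Fintype.card (Fin (N ^ 2 + 1)) := by
      rw [Fintype.card_prod, ZMod.card, Fintype.card_fin]; nlinarith
    obtain ⟨x, y, hxy, hf⟩ := Fintype.exists_ne_map_eq_of_card_lt
      (fun i : Fin (N ^ 2 + 1) => (M (c.take i.1) 0 0, M (c.take i.1) 0 1)) hcard
    simp only [Prod.mk.injEq] at hf
    rcases lt_or_gt_of_ne hxy with h | h
    · exact ⟨x, y, h, by omega, hf.1, hf.2⟩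
    · exact ⟨y, x, h, by omega, hf.1.symm, hf.2.symm⟩
  have htake : ∀ m, m < c.length → ∃ x, c.take (m + 1) = c.take m ++ [x] := by
    intro m hm
    exact ⟨c.get ⟨m, hm⟩, by simp⟩
  obtain ⟨xi, hxi⟩ := htake i (by omega)
  obtain ⟨xj, hxj⟩ := htake j (by omega)
  set u := c.take (i + 1) with hu
  set t := (c.drop (i + 1)).take (j - i) with ht
  set w := c.drop (j + 1) with hw
  have hut : c.take (j + 1) = u ++ t := by
    rw [hu, ht]
    have : j + 1 = (i + 1) + (j - i) := by omega
    rw [this, List.take_add]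
  have hcw : c = u ++ t ++ w := by
    rw [← hut, hw, List.take_append_drop]
  have hP : M t 0 0 = 1 := by
    have hA : M (c.take (j + 1)) = M t * M u := by rw [hut, M_append]
    have dA := det_M (c.take (j + 1))
    have dB := det_M u
    rw [Matrix.det_fin_two] at dA dB
    have a10 : M (c.take (j + 1)) 1 0 = M (c.take j) 0 0 := by rw [hxj, row]
    have a11 : M (c.take (j + 1)) 1 1 = M (c.take j) 0 1 := by rw [hxj, row]
    have b10 : M u 1 0 = M (c.take i) 0 0 := by rw [hxi, row]
    have b11 : M u 1 1 = M (c.take i) 0 1 := by rw [hxi, row]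
    have e00 : M (c.take (j + 1)) 0 0 = M t 0 0 * M u 0 0 + M t 0 1 * M u 1 0 := by
      rw [hA]; simp [Matrix.mul_apply, Fin.sum_univ_two]
    have e01 : M (c.take (j + 1)) 0 1 = M t 0 0 * M u 0 1 + M t 0 1 * M u 1 1 := by
      rw [hA]; simp [Matrix.mul_apply, Fin.sum_univ_two]
    rw [a10, a11, ← h0, ← h1, ← b10, ← b11, e00, e01] at dA
    linear_combination dA - (M t 0 0) * dB
  have htne : t ≠ [] := by
    intro h
    have : t.length = 0 := by rw [h]; rfl
    rw [ht, List.length_take, List.length_drop] at this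
    omega
  -- the rotated tuple
  have hrl : 3 ≤ (w ++ u).length := by
    rw [List.length_append, hw, hu, List.length_drop, List.length_take]
    omega
  obtain ⟨x0, s, y0, hs, hwu⟩ : ∃ x0 s y0, s ≠ [] ∧ w ++ u = x0 :: (s ++ [y0]) := by
    match hl : w ++ u with
    | [] => rw [hl] at hrl; simp at hrl
    | x0 :: l =>
      have hl3 : 2 ≤ l.length := by rw [hl] at hrl; simpa using hrl
      have hlne : l ≠ [] := by rintro rfl; simp at hl3
      refine ⟨x0, l.dropLast, l.getLast hlne, ?_, ?_⟩
      · intro h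
        have : l.dropLast.length = 0 := by rw [h]; rfl
        rw [List.length_dropLast] at this
        omega
      · rw [List.dropLast_append_getLast]
  have hc' : IsSolution (x0 :: (s ++ [y0]) ++ t) := by
    rw [← hwu, List.append_assoc]
    apply rot
    rw [← hcw]; exact hc
  obtain ⟨a, b, ha, ha3, hb, hb3, hab⟩ := reduce hs htne hc' hP
  refine ⟨a, b, ha, ha3, hb, hb3, Or.inl ?_⟩
  rw [hab, ← hwu, List.append_assoc]
  conv_lhs => rw [hcw]
  exact List.isRotated_append

/-- For every `N ≥ 2` the equation `(E_N)` has only finitely many irreducible solutions; every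
irreducible solution has size at most `N^2 + 2`. -/
theorem result (N : ℕ) (hN : 2 ≤ N) :
    {c : List (ZMod N) | IsIrreducible c}.Finite ∧
      ∀ c : List (ZMod N), IsIrreducible c → c.length ≤ N ^ 2 + 2 := by
  have : NeZero N := ⟨by omega⟩
  have key : ∀ c : List (ZMod N), IsIrreducible c → c.length ≤ N ^ 2 + 2 := by
    intro c hc
    by_contra h
    exact hc.2.2 (reducible_of_large hN hc.1 (by omega))
  refine ⟨?_, key⟩
  exact (List.finite_length_le (ZMod N) (N ^ 2 + 2)).subset key

end Pool.Agent.Results.MP_762e7e_co.FinitelyMany
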